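import Pool.Agent.Work.MP_db9399_ts.OO
import Pool.Agent.Work.MP_db9399_as_helper75.ROUND

/-!
# MP_db9399, OOF, part 5 (helper31): the class 5 and the edges of `R`
-/

set_option autoImplicit false
set_option linter.unusedSectionVars false

namespace Pool.Agent.Work.MP_db9399_oof_helper31

open Finset Classical
open Pool.Agent.Work.MP_db9399_ts
open Pool.Agent.Work.MP_db9399_all (nb)

universe u

variable {W : Type u} [Fintype W]

/-- The edges of `R`: `t x` edges of `F` from every `x ∈ M` to `M5`, at most one at every vertex of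
`M5`. -/
theorem redges (F : SimpleGraph W) (M M5 : Finset W) (t : W → ℕ) (m c : ℝ) (hm : 0 < m)
    (hd : Disjoint M M5) (ht : ∀ x, (t x : ℝ) ≤ 5)
    (h1 : ∀ x ∈ M, t x ≠ 0 → m ≤ ((nb F x ∩ M5).card : ℝ))
    (h2 : ∀ y, ((nb F y ∩ M).card : ℝ) ≤ c) (hm5 : 5 ≤ m) (hc : 5 * c ≤ m) :
    ∃ R : SimpleGraph W, R ≤ F ∧ (∀ x ∈ M, (nb R x).card = t x) ∧ (∀ x ∈ M5, (nb R x).card ≤ 1) ∧
      ∀ x, x ∉ M → x ∉ M5 → (nb R x).card = 0 := by
  set P : W × W → Prop := fun p => p.1 ∈ M ∧ p.2 ∈ M5 ∧ F.Adj p.1 p.2 ∧ t p.1 ≠ 0 with hP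
  set w : W × W → ℝ := fun p => if P p then (t p.1 : ℝ) / ((nb F p.1 ∩ M5).card : ℝ) else 0 with hw
  have hw01 : ∀ p, 0 ≤ w p ∧ w p ≤ 5 / m := by
    intro p
    simp only [hw]
    split_ifs with h
    · refine ⟨by positivity, ?_⟩
      have h3 := h1 p.1 h.1 h.2.2.2
      rw [div_le_div_iff₀ (lt_of_lt_of_le hm h3) hm]
      have h4 := ht p.1
      have h5 : (0 : ℝ) ≤ t p.1 := Nat.cast_nonneg _
      calc (t p.1 : ℝ) * m ≤ 5 * m := mul_le_mul_of_nonneg_right h4 hm.le
        _ ≤ 5 * ((nb F p.1 ∩ M5).card : ℝ) := mul_le_mul_of_nonneg_left h3 (by norm_num)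
    · exact ⟨le_rfl, by positivity⟩
  have hw1 : ∀ p, w p ≤ 1 := fun p => (hw01 p).2.trans (by rw [div_le_one hm]; exact hm5)
  obtain ⟨z, z1, z2, z3⟩ := Pool.Agent.Work.MP_db9399_as_helper75.round_bip
    (fun p : W × W => p.1) (fun p : W × W => p.2) w
  have hz01 : ∀ p, z p = 0 ∨ z p = 1 := by
    intro p
    have h3 := z1 p
    have h4 : 0 ≤ ⌊w p⌋ := Int.floor_nonneg.2 (hw01 p).1
    have h5 : ⌈w p⌉ ≤ 1 := Int.ceil_le.2 (by exact_mod_cast hw1 p)
    omega
  have hz0 : ∀ p, ¬ P p → z p = 0 := by
    intro p hp
    have h3 := z1 p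
    have h4 : w p = 0 := if_neg hp
    rw [h4] at h3
    simp at h3
    omega
  have hzP : ∀ p, z p = 1 → P p := by
    intro p hp
    by_contra h
    rw [hz0 p h] at hp
    exact absurd hp (by norm_num)
  -- row sums
  have hrow : ∀ x ∈ M, ∑ p : W × W with p.1 = x, z p = t x := by
    intro x hx
    have h3 : ∑ p : W × W with p.1 = x, w p = ((t x : ℤ) : ℝ) := by
      by_cases h0 : t x = 0
      · rw [h0]
        push_cast
        refine sum_eq_zero fun p hp => ?_
        simp only [mem_filter, mem_univ, true_and] at hp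
        refine if_neg fun h => h.2.2.2 ?_
        rw [hp]
        exact h0
      · have h4 := h1 x hx h0
        have h5 : (0 : ℝ) < ((nb F x ∩ M5).card : ℝ) := lt_of_lt_of_le hm h4
        have h6 : ∑ p : W × W with p.1 = x, w p =
            ∑ y ∈ nb F x ∩ M5, (t x : ℝ) / ((nb F x ∩ M5).card : ℝ) := by
          have h7 : ∑ p : W × W with p.1 = x, w p =
              ∑ p : W × W with p.1 = x ∧ P p, (t p.1 : ℝ) / ((nb F p.1 ∩ M5).card : ℝ) := by
            rw [← filter_filter, sum_filter (fun p => P p)]
          rw [h7]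
          refine sum_bij (fun p _ => p.2) (fun p hp => ?_) (fun p hp q hq h => ?_)
            (fun y hy => ?_) (fun p hp => ?_)
          · simp only [mem_filter, mem_univ, true_and] at hp
            rw [mem_inter]
            unfold nb
            simp only [mem_filter, mem_univ, true_and]
            rw [← hp.1]
            exact ⟨hp.2.2.2.1, hp.2.2.1⟩
          · simp only [mem_filter, mem_univ, true_and] at hp hq
            exact Prod.ext (hp.1.trans hq.1.symm) h
          · rw [mem_inter] at hy
            unfold nb at hy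
            simp only [mem_filter, mem_univ, true_and] at hy
            exact ⟨(x, y), mem_filter.2 ⟨mem_univ _, rfl, hx, hy.2, hy.1, h0⟩, rfl⟩
          · simp only [mem_filter, mem_univ, true_and] at hp
            rw [hp.1]
        rw [h6, sum_const, nsmul_eq_mul]
        push_cast
        field_simp
    have h4 := z2 x
    rw [h3, Int.floor_intCast, Int.ceil_intCast] at h4
    omega
  -- column sums
  have hcol : ∀ y, ∑ p : W × W with p.2 = y, z p ≤ 1 := by
    intro y
    have h3 : ∑ p : W × W with p.2 = y, w p ≤ 1 := by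
      have h7 : ∑ p : W × W with p.2 = y, w p ≤
          ∑ p : W × W with p.2 = y ∧ P p, 5 / m := by
        rw [← filter_filter, sum_filter (fun p => P p)]
        refine sum_le_sum fun p _ => ?_
        split_ifs with h
        · exact (hw01 p).2
        · exact le_of_eq (if_neg h)
      refine h7.trans ?_
      rw [sum_const, nsmul_eq_mul]
      have h8 : (univ.filter fun p : W × W => p.2 = y ∧ P p).card ≤ (nb F y ∩ M).card := by
        refine card_le_card_of_injOn (fun p => p.1) (fun p hp => ?_) (fun p hp q hq h => ?_)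
        · rw [mem_coe, mem_filter] at hp
          replace hp := hp.2
          rw [mem_coe, mem_inter]
          unfold nb
          simp only [mem_filter, mem_univ, true_and]
          rw [← hp.1]
          exact ⟨hp.2.2.2.1.symm, hp.2.1⟩
        · rw [mem_coe, mem_filter] at hp hq
          exact Prod.ext h (hp.2.1.trans hq.2.1.symm)
      have h9 : ((univ.filter fun p : W × W => p.2 = y ∧ P p).card : ℝ) ≤ c :=
        (by exact_mod_cast h8 : ((univ.filter fun p : W × W => p.2 = y ∧ P p).card : ℝ) ≤
          ((nb F y ∩ M).card : ℝ)).trans (h2 y)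
      rw [← mul_div_assoc, div_le_one hm]
      linarith
    exact (z3 y).2.trans (Int.ceil_le.2 (by exact_mod_cast h3))
  -- the graph
  let R : SimpleGraph W :=
    { Adj := fun x y => z (x, y) = 1 ∨ z (y, x) = 1
      symm := ⟨fun x y h => h.symm⟩
      loopless := ⟨fun x h => by
        have h3 : z (x, x) = 1 := h.elim id id
        have h4 := hzP _ h3
        exact disjoint_left.1 hd h4.1 h4.2.1⟩ }
  have hRadj : ∀ x y, R.Adj x y ↔ z (x, y) = 1 ∨ z (y, x) = 1 := fun x y => Iff.rfl
  have hcrow : ∀ x, ((univ.filter fun y => z (x, y) = 1).card : ℤ) =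
      ∑ p : W × W with p.1 = x, z p := by
    intro x
    have h3 : ∑ p : W × W with p.1 = x, z p = ∑ y, z (x, y) := by
      refine (sum_bij (fun y _ => (x, y)) (fun y _ => ?_) (fun y _ y' _ h => ?_)
        (fun p hp => ?_) (fun y _ => rfl)).symm
      · simp only [mem_filter, mem_univ, true_and]
      · exact (Prod.ext_iff.1 h).2
      · simp only [mem_filter, mem_univ, true_and] at hp
        exact ⟨p.2, mem_univ _, Prod.ext hp.symm rfl⟩
    rw [h3, card_filter]
    push_cast
    refine sum_congr rfl fun y _ => ?_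
    rcases hz01 (x, y) with h | h <;> rw [h] <;> simp
  have hccol : ∀ y, ((univ.filter fun x => z (x, y) = 1).card : ℤ) =
      ∑ p : W × W with p.2 = y, z p := by
    intro y
    have h3 : ∑ p : W × W with p.2 = y, z p = ∑ x, z (x, y) := by
      refine (sum_bij (fun x _ => (x, y)) (fun x _ => ?_) (fun x _ x' _ h => ?_)
        (fun p hp => ?_) (fun x _ => rfl)).symm
      · simp only [mem_filter, mem_univ, true_and]
      · exact (Prod.ext_iff.1 h).1
      · simp only [mem_filter, mem_univ, true_and] at hp
        exact ⟨p.1, mem_univ _, Prod.ext rfl hp.symm⟩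
    rw [h3, card_filter]
    push_cast
    refine sum_congr rfl fun x _ => ?_
    rcases hz01 (x, y) with h | h <;> rw [h] <;> simp
  refine ⟨R, fun x y h => ?_, fun x hx => ?_, fun y hy => ?_, fun x hx hx5 => ?_⟩
  · rcases h with h | h
    · exact (hzP _ h).2.2.1
    · exact (hzP _ h).2.2.1.symm
  · have h3 : nb R x = univ.filter fun y => z (x, y) = 1 := by
      ext y
      unfold nb
      simp only [mem_filter, mem_univ, true_and]
      rw [hRadj]
      constructor
      · rintro (h | h)
        · exact h
        · exact absurd (hzP _ h).2.1 (disjoint_left.1 hd hx)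
      · exact Or.inl
    have h4 := hcrow x
    rw [hrow x hx] at h4
    rw [h3]
    exact_mod_cast h4
  · have h3 : nb R y = univ.filter fun x => z (x, y) = 1 := by
      ext x
      unfold nb
      simp only [mem_filter, mem_univ, true_and]
      rw [hRadj]
      constructor
      · rintro (h | h)
        · exact absurd hy (disjoint_left.1 hd (hzP _ h).1)
        · exact h
      · exact Or.inr
    have h4 := hccol y
    have h5 := hcol y
    rw [h3]
    have h6 : ((univ.filter fun x => z (x, y) = 1).card : ℤ) ≤ 1 := by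
      rw [h4]
      exact h5
    exact_mod_cast h6
  · rw [card_eq_zero, eq_empty_iff_forall_notMem]
    intro y hy
    unfold nb at hy
    simp only [mem_filter, mem_univ, true_and] at hy
    rcases hy with h | h
    · exact hx (hzP _ h).1
    · exact hx5 (hzP _ h).2.1

end Pool.Agent.Work.MP_db9399_oof_helper31
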