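import Pool.Agent.Work.MP_db9399_oof_helper31.One
import Pool.Agent.Work.MP_db9399_oof_helper31.Rest

/-!
# MP_db9399, OOF (helper31): all classes inside `O`
-/

set_option autoImplicit false
set_option linter.unusedSectionVars false

namespace Pool.Agent.Work.MP_db9399_oof_helper31

open Finset Classical
open Pool.Agent.Work.MP_db9399_ts
open Pool.Agent.Work.MP_db9399_all (nb)

universe u

/-- all large `d` are `Big` -/
theorem big_ex (k : ℕ) (ρ1 γ : ℝ) (h1 : 0 < ρ1) (hγ : 0 < γ) : ∃ d0 : ℕ, ∀ d, d0 ≤ d →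
    Big d k ρ1 γ := by
  have hN : Filter.Tendsto (fun d : ℕ => (d : ℝ)) Filter.atTop Filter.atTop :=
    tendsto_natCast_atTop_atTop
  have hz : ∀ a : ℝ, 0 < a → Filter.Tendsto (fun d : ℕ => (d : ℝ) ^ (-a)) Filter.atTop (nhds 0) :=
    fun a ha => (tendsto_rpow_neg_atTop ha).comp hN
  -- er
  have her : Filter.Tendsto (fun d : ℕ => er d) Filter.atTop (nhds 0) := by
    have h3 : Filter.Tendsto (fun x : ℝ => (Real.sqrt (128 * Real.log x) + 1) * (10 / Real.sqrt x))
        Filter.atTop (nhds 0) := by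
      have h4 : Filter.Tendsto (fun x : ℝ => Real.log x / x) Filter.atTop (nhds 0) := by
        have := Real.isLittleO_log_id_atTop
        exact this.tendsto_div_nhds_zero
      have h5 : Filter.Tendsto (fun x : ℝ => Real.sqrt (128 * (Real.log x / x)) * 10)
          Filter.atTop (nhds 0) := by
        have h6 := ((h4.const_mul 128).sqrt).mul_const 10
        simpa using h6
      have h7 : Filter.Tendsto (fun x : ℝ => 10 / Real.sqrt x) Filter.atTop (nhds 0) :=
        (Real.tendsto_sqrt_atTop).const_div_atTop 10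
      have h8 := h5.add h7
      rw [add_zero] at h8
      refine h8.congr' ?_
      filter_upwards [Filter.eventually_gt_atTop 1] with x hx
      have hx0 : 0 < x := by linarith
      have hs : 0 < Real.sqrt x := Real.sqrt_pos.2 hx0
      rw [← mul_div_assoc, Real.sqrt_div (by
        have := Real.log_nonneg hx.le
        positivity)]
      field_simp
    exact h3.comp hN
  have e1 : ∀ᶠ d : ℕ in Filter.atTop, 4 + (d : ℝ) ^ (1 / 4 : ℝ) ≤ 2 / 2 ^ k * (d / 5) := by
    have h3 : Filter.Tendsto (fun d : ℕ => 4 * (d : ℝ) ^ (-(1 : ℝ)) + (d : ℝ) ^ (-(3 / 4) : ℝ))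
        Filter.atTop (nhds 0) := by
      have := ((hz 1 one_pos).const_mul 4).add (hz (3 / 4) (by norm_num))
      simpa using this
    have h4 : (0 : ℝ) < 2 / 2 ^ k / 5 := by positivity
    filter_upwards [h3.eventually (ge_mem_nhds h4), Filter.eventually_gt_atTop 0] with d hd hd0
    have hd0' : (0 : ℝ) < d := by exact_mod_cast hd0
    have h5 : (d : ℝ) ^ (1 / 4 : ℝ) = (d : ℝ) ^ (-(3 / 4) : ℝ) * d := by
      nth_rw 3 [← Real.rpow_one (d : ℝ)]
      rw [← Real.rpow_add hd0']
      norm_num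
    have h6 : (d : ℝ) ^ (-(1 : ℝ)) * d = 1 := by
      rw [Real.rpow_neg_one]
      field_simp
    calc 4 + (d : ℝ) ^ (1 / 4 : ℝ)
        = (4 * (d : ℝ) ^ (-(1 : ℝ)) + (d : ℝ) ^ (-(3 / 4) : ℝ)) * d := by
          rw [h5, add_mul, mul_assoc, h6]
          ring
      _ ≤ 2 / 2 ^ k / 5 * d := mul_le_mul_of_nonneg_right hd hd0'.le
      _ = 2 / 2 ^ k * (d / 5) := by ring
  have e2 : ∀ᶠ d : ℕ in Filter.atTop, 14 * 2 ^ k * (d : ℝ) ^ (-(51 / 100) : ℝ) ≤ 1 / 12 := by
    have h3 := (hz (51 / 100) (by norm_num)).const_mul (14 * 2 ^ k)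
    rw [mul_zero] at h3
    exact h3.eventually (ge_mem_nhds (by norm_num))
  have e3 : ∀ᶠ d : ℕ in Filter.atTop, 8 * (14 * 2 ^ k * (d : ℝ) ^ (-(2 / 100) : ℝ) +
    2 ^ k * ((1 / 2 * (d : ℝ) ^ (-γ) + er d) / 2 + (d : ℝ) ^ (-(1 / 100) : ℝ))) ≤ ρ1 ^ 2 := by
    have h3 := (((hz (2 / 100) (by norm_num)).const_mul (14 * 2 ^ k)).add
      ((((((hz γ hγ).const_mul (1 / 2)).add her).div_const 2).add
        (hz (1 / 100) (by norm_num))).const_mul (2 ^ k))).const_mul 8
    simp only [mul_zero, add_zero, zero_div] at h3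
    exact h3.eventually (ge_mem_nhds (by positivity))
  obtain ⟨d0, hd0⟩ := Filter.eventually_atTop.1
    ((e1.and e2).and (e3.and (Filter.eventually_ge_atTop 40)))
  exact ⟨d0, fun d hd => ⟨(hd0 d hd).2.2, (hd0 d hd).1.1, (hd0 d hd).1.2, (hd0 d hd).2.1⟩⟩

variable {W B : Type u} [Fintype W] [Fintype B]

/-- the class of an edge -/
noncomputable def cls (S : Fin 6 → SimpleGraph W) (v w : W) : Fin 6 :=
  if h : ∃ j, j ≠ 5 ∧ (S j).Adj v w then h.choose else 5

theorem cls_eq (S : Fin 6 → SimpleGraph W)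
    (hS : ∀ i j v w, i ≠ 5 → j ≠ 5 → (S i).Adj v w → (S j).Adj v w → i = j) (j : Fin 6)
    (hj : j ≠ 5) (v w : W) : cls S v w = j ↔ (S j).Adj v w := by
  unfold cls
  constructor
  · intro h
    split_ifs at h with h1
    · have h2 := h1.choose_spec
      rw [h] at h2
      exact h2.2
    · exact absurd h.symm hj
  · intro h
    have h1 : ∃ j, j ≠ 5 ∧ (S j).Adj v w := ⟨j, hj, h⟩
    rw [dif_pos h1]
    exact hS _ _ v w h1.choose_spec.1 hj h1.choose_spec.2 h

theorem cls5 (S : Fin 6 → SimpleGraph W) (v w : W) (h : ∀ j, j ≠ 5 → ¬ (S j).Adj v w) :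
    cls S v w = 5 := by
  unfold cls
  rw [dif_neg]
  rintro ⟨j, hj, h1⟩
  exact h j hj h1

theorem cls_symm (S : Fin 6 → SimpleGraph W) (v w : W) : cls S v w = cls S w v := by
  unfold cls
  have : (fun j => j ≠ 5 ∧ (S j).Adj v w) = fun j => j ≠ 5 ∧ (S j).Adj w v := by
    funext j
    rw [SimpleGraph.adj_comm]
  simp only [this]

/-- degrees of the classes -/
theorem sum_cls (F : SimpleGraph W) (co : W → W → Fin 6) (x : W) :
    ∑ j, ((nb F x).filter fun y => co x y = j).card = (nb F x).card :=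
  (card_eq_sum_card_fiberwise (f := fun y => co x y) (fun _ _ => mem_coe.2 (mem_univ _))).symm

theorem stmt_OOF : Stmt_OOF.{u} := by
  intro k ρ ρ1 ρ5 c2 K1 γ h1 h1' h5 hγ
  obtain ⟨d1, hd1⟩ := big_ex k ρ1 γ h1 hγ
  obtain ⟨d2, hd2⟩ := exists_nat_ge (5 / ρ5)
  refine ⟨max d1 d2, ?_⟩
  intro W B _ _ X D σ bs fl Y MO MI M5 L hd reg hD hDs hc hO hLs hL hr hr'
  have hB := hd1 X.d ((le_max_left _ _).trans hd)
  have hd2' : 5 / ρ5 ≤ X.d := hd2.trans (by exact_mod_cast (le_max_right _ _).trans hd)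
  have hone := fun j (hj : j ≠ (5 : Fin 6)) => one MP_db9399_oox_helper48.stmt_OOX k ρ ρ1 ρ5 c2 K1 γ
    h1 h1' X σ bs fl Y MO MI M5 (D j) (L j) hB reg j hj (hD j) hc hO (fun x hx => hL x j hx)
    (fun x s => hr x s j hj) (fun x s => hr' x s j hj)
  choose! S s1 s2 s3 s4 s5 s6 using hone
  -- disjoint
  have hcell : ∀ i j v w, i ≠ 5 → Y.ar v w → (S i).Adj v w → Y.ce v w ∈ bs j ∪ fl j → i = j := by
    intro i j v w hi ha hS hj
    by_contra hne
    have h2 := s3 i hi v w ha hS
    rw [mem_union] at h2 hj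
    rcases h2 with h2 | h2 <;> rcases hj with h3 | h3
    · exact disjoint_left.1 (hc.bb i j hne) h2 h3
    · exact disjoint_left.1 (hc.bf i j) h2 h3
    · exact disjoint_left.1 (hc.bf j i) h3 h2
    · exact disjoint_left.1 (hc.ff i j hne) h2 h3
  have hdis : ∀ i j v w, i ≠ 5 → j ≠ 5 → (S i).Adj v w → (S j).Adj v w → i = j := by
    intro i j v w hi hj hSi hSj
    rcases (hO.arF v w).1 (s1 i hi hSi) with h | h
    · exact hcell i j v w hi h hSi (s3 j hj v w h hSj)
    · exact hcell i j w v hi h hSi.symm (s3 j hj w v h hSj.symm)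
  set co : W → W → Fin 6 := cls S with hco
  have hcoj : ∀ j, j ≠ 5 → ∀ v w, co v w = j ↔ (S j).Adj v w := fun j hj v w =>
    cls_eq S hdis j hj v w
  have hcs : ∀ v w, co v w = co w v := cls_symm S
  have hbs : ∀ v w, Y.ar v w → ∀ j, Y.ce v w ∈ bs j → co v w = j := by
    intro v w ha j hj
    by_cases h5 : j = 5
    · rw [h5]
      refine cls5 S v w fun i hi hS => hi ?_
      have := hcell i j v w hi ha hS (mem_union_left _ hj)
      rw [this, h5]
    · exact (hcoj j h5 v w).2 (s2 j h5 v w ha hj)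
  have hcg5 : ∀ v w, (Y.cg (bs 5)).Adj v w → X.FO.Adj v w ∧ co v w = 5 := by
    intro v w h
    rcases h.2 with h2 | h2
    · exact ⟨(hO.arF v w).2 (Or.inl h2.1), hbs v w h2.1 5 h2.2⟩
    · exact ⟨(hO.arF v w).2 (Or.inr h2.1), (hcs v w).trans (hbs w v h2.1 5 h2.2)⟩
  -- the degrees
  set c : Fin 6 → W → ℕ := fun j x => ((nb X.FO x).filter fun y => co x y = j).card with hcd
  have hcj : ∀ j, j ≠ 5 → ∀ x, c j x = (nb (S j) x).card := by
    intro j hj x
    simp only [hcd]
    congr 1
    ext y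
    unfold nb
    simp only [mem_filter, mem_univ, true_and]
    rw [hcoj j hj]
    exact ⟨fun h => h.2, fun h => ⟨s1 j hj h, h⟩⟩
  set t : W → ℕ := fun x => if X.h1 x then ∑ j with j ≠ 5, (D j - L j x - c j x) else 0 with ht
  have ht5 : ∀ x, t x ≤ 5 := by
    intro x
    simp only [ht]
    split_ifs with hx
    · calc ∑ j with j ≠ (5 : Fin 6), (D j - L j x - c j x) ≤ ∑ j with j ≠ (5 : Fin 6), 1 := by
            refine sum_le_sum fun j hj => ?_
            simp only [mem_filter, mem_univ, true_and] at hj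
            have h2 := s5 j hj x hx
            rw [← hcj j hj] at h2
            omega
        _ = 5 := by decide
    · omega
  have hMM : ∀ x, X.h1 x → x ∉ MO → x ∉ MI → t x = 0 := by
    intro x hx hmo hmi
    simp only [ht]
    rw [if_pos hx]
    refine sum_eq_zero fun j hj => ?_
    simp only [mem_filter, mem_univ, true_and] at hj
    have h2 := s4 j hj x hx hmo hmi
    rw [← hcj j hj] at h2
    omega
  have hc5 : ∀ x, X.h1 x → c 5 x + L 5 x = D 5 + t x := by
    intro x hx
    have h2 := sum_cls X.FO co x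
    have h3 := nO_lg X x hx.1
    rw [reg x] at h3
    have h4 : (nb X.FO x).card + ∑ j, L j x = ∑ j, D j := by
      rw [hDs]
      have h6 := hLs x hx
      have : (((nb X.FO x).card : ℕ) : ℝ) + ((∑ j, L j x : ℕ) : ℝ) = (X.d : ℝ) := by
        push_cast
        rw [h6]
        exact h3
      exact_mod_cast this
    rw [← h2] at h4
    have h7 : t x = ∑ j with j ≠ 5, (D j - L j x - c j x) := by
      simp only [ht]
      rw [if_pos hx]
    have h8 : ∀ j, j ≠ 5 → (D j - L j x - c j x) + L j x + c j x = D j := by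
      intro j hj
      have h2 := s5 j hj x hx
      rw [← hcj j hj] at h2
      omega
    have h9 : ∀ f : Fin 6 → ℕ, ∑ j, f j = f 5 + ∑ j with j ≠ 5, f j := by
      intro f
      rw [← sum_filter_add_sum_filter_not univ (fun j : Fin 6 => j ≠ 5) f, add_comm]
      congr 1
    have h10 : ∑ j with j ≠ (5 : Fin 6), D j = ∑ j with j ≠ (5 : Fin 6), (D j - L j x - c j x) +
        ∑ j with j ≠ (5 : Fin 6), L j x + ∑ j with j ≠ (5 : Fin 6), c j x := by
      rw [← sum_add_distrib, ← sum_add_distrib]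
      refine sum_congr rfl fun j hj => ?_
      simp only [mem_filter, mem_univ, true_and] at hj
      exact (h8 j hj).symm
    rw [h9 D, h9 (fun j => L j x)] at h4
    have h11 : ∑ j, ((nb X.FO x).filter fun y => co x y = j).card = ∑ j, c j x := rfl
    rw [h11, h9 (fun j => c j x)] at h4
    omega
  -- the edges of R
  have hd0 : (0 : ℝ) < X.d := by
    have := hB.d40
    exact_mod_cast (by omega : 0 < X.d)
  obtain ⟨R, r1, r2, r3, r4⟩ := redges (Y.cg (bs 5)) (MO ∪ MI) M5 t (ρ5 * X.d)
    (ρ5 * X.d / 10) (by positivity) hO.M5d.symm (fun x => by exact_mod_cast ht5 x)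
    (fun x _ h0 => by
      refine hO.m5 x ?_
      by_contra hx
      exact h0 (if_neg hx))
    (fun y => by
      have h2 := hO.sp1 y
      have h3 : (nb (Y.cg (bs 5)) y ∩ (MO ∪ MI)).card ≤ (nb X.G y ∩ (MO ∪ MI)).card := by
        refine card_le_card fun w hw => ?_
        rw [mem_inter] at hw ⊢
        refine ⟨?_, hw.2⟩
        have h4 := hw.1
        unfold nb at h4 ⊢
        simp only [mem_filter, mem_univ, true_and] at h4 ⊢
        exact (hcg5 y w h4).1.1
      have h4 : ((nb (Y.cg (bs 5)) y ∩ (MO ∪ MI)).card : ℝ) ≤ ((nb X.G y ∩ (MO ∪ MI)).card : ℝ) := by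
        exact_mod_cast h3
      linarith)
    (by
      rw [div_le_iff₀ h5] at hd2'
      linarith)
    (by
      have : 0 < ρ5 * X.d := by positivity
      linarith)
  have hRco : ∀ x y, R.Adj x y → X.FO.Adj x y ∧ co x y = 5 := fun x y h => hcg5 x y (r1 h)
  have hdO : ∀ j, j ≠ 5 → ∀ x, X.dO co R j x = c j x := by
    intro j hj x
    unfold Dat.dO
    simp only [hcd]
    congr 1
    ext y
    simp only [mem_filter]
    constructor
    · exact fun h => ⟨h.1, h.2.1⟩
    · refine fun h => ⟨h.1, h.2, fun h2 => hj ?_⟩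
      rw [← h.2]
      exact (hRco x y h2).2
  have hdO5 : ∀ x, X.dO co R 5 x + (nb R x).card = c 5 x := by
    intro x
    unfold Dat.dO
    simp only [hcd]
    rw [← card_union_of_disjoint]
    · congr 1
      ext y
      simp only [mem_union, mem_filter]
      constructor
      · rintro (h | h)
        · exact ⟨h.1, h.2.1⟩
        · unfold nb at h ⊢
          simp only [mem_filter, mem_univ, true_and] at h ⊢
          exact hRco x y h
      · intro h
        by_cases h2 : R.Adj x y
        · right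
          unfold nb
          simp only [mem_filter, mem_univ, true_and]
          exact h2
        · exact Or.inl ⟨h.1, h.2, h2⟩
    · rw [disjoint_left]
      intro y h2 h3
      simp only [mem_filter] at h2
      unfold nb at h3
      simp only [mem_filter, mem_univ, true_and] at h3
      exact h2.2.2 h3
  have hR0 : ∀ x, x ∉ M5 → (X.h1 x → x ∉ MO ∧ x ∉ MI) → (nb R x).card = 0 := by
    intro x hx5 hx
    by_cases hm : x ∈ MO ∪ MI
    · rw [r2 x hm]
      simp only [ht]
      rw [if_neg]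
      intro h
      rw [mem_union] at hm
      have := hx h
      tauto
    · exact r4 x hm hx5
  refine ⟨co, R, r1, hcs, hbs, fun x hx j => ?_, fun x hx j hj hmo hmi => ?_, fun x hx hm5 => ?_,
    fun x j hx hj => ?_, fun x => ?_, fun x hx => ⟨?_, fun hx5 => hR0 x hx5 hx⟩⟩
  · by_cases hj : j = 5
    · rw [hj]
      have h2 := hc5 x hx
      have h3 := hdO5 x
      by_cases hm : x ∈ MO ∪ MI
      · rw [r2 x hm] at h3
        omega
      · rw [mem_union, not_or] at hm
        have h4 := hMM x hx hm.1 hm.2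
        by_cases hm5 : x ∈ M5
        · have := r3 x hm5
          omega
        · have := hR0 x hm5 fun _ => hm
          omega
    · rw [hdO j hj, hcj j hj]
      exact s5 j hj x hx
  · rw [hdO j hj, hcj j hj]
    exact s4 j hj x hx hmo hmi
  · have h2 := hc5 x hx
    have h3 := hdO5 x
    by_cases hm : x ∈ MO ∪ MI
    · rw [r2 x hm] at h3
      omega
    · rw [mem_union, not_or] at hm
      have h4 := hMM x hx hm.1 hm.2
      have := hR0 x hm5 fun _ => hm
      omega
  · rw [hdO j hj, hcj j hj]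
    exact s6 j hj x hx
  · by_cases hm : x ∈ MO ∪ MI
    · rw [r2 x hm]
      exact ht5 x
    · by_cases hm5 : x ∈ M5
      · exact (r3 x hm5).trans (by norm_num)
      · rw [r4 x hm hm5]
        norm_num
  · by_cases hm5 : x ∈ M5
    · exact r3 x hm5
    · rw [hR0 x hm5 hx]
      norm_num

end Pool.Agent.Work.MP_db9399_oof_helper31
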