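import Pool.Agent.Work.MP_db9399_ts.OO

/-!
# MP_db9399, OOF, part 1 (helper31): the fractional weights of one class

`po`: push of the out-copy of `v` per flexible arc of the system `s`; `xw`: weight of an arc.
-/

set_option autoImplicit false
set_option linter.unusedSectionVars false

namespace Pool.Agent.Work.MP_db9399_oof_helper31

open Finset Classical
open Pool.Agent.Work.MP_db9399_ts
open Pool.Agent.Work.MP_db9399_all (nb)

universe u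

variable {W B : Type u} [Fintype W] [Fintype B]

/-- push of the out-copy of `v` on each of its flexible arcs in the system `s` -/
noncomputable def po (X : Dat W B) (Y : Arcs W) (k : ℕ) (σ : Fin 6 → ℝ) (bs fl : Fin 6 → Finset ℕ)
    (j : Fin 6) (δ : W → ℝ) (v : W) (s : Bool) : ℝ :=
  if X.h1 v then
    (δ v / 2 - Y.nz k σ bs fl j (!s) v) * (2 ^ k / 3) / Y.oc s (range (2 ^ k)) v
  else 0

/-- weight of the arc `v w` -/
noncomputable def xw (X : Dat W B) (Y : Arcs W) (k : ℕ) (σ : Fin 6 → ℝ) (bs fl : Fin 6 → Finset ℕ)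
    (j : Fin 6) (δ δ' : W → ℝ) (v w : W) : ℝ :=
  if Y.ar v w ∧ Y.ce v w ∈ fl j then
    wc k σ bs j + (po X Y k σ bs fl j δ v (Y.sy v w) + po X Y.rev k σ bs fl j δ' w (Y.sy v w))
  else 0

theorem xw_rev (X : Dat W B) (Y : Arcs W) (k : ℕ) (σ : Fin 6 → ℝ) (bs fl : Fin 6 → Finset ℕ)
    (j : Fin 6) (δ δ' : W → ℝ) (v w : W) :
    xw X Y.rev k σ bs fl j δ' δ w v = xw X Y k σ bs fl j δ δ' v w := by
  unfold xw
  show (if Y.ar v w ∧ Y.ce v w ∈ fl j then wc k σ bs j + (po X Y.rev k σ bs fl j δ' w (Y.sy v w) +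
    po X Y k σ bs fl j δ v (Y.sy v w)) else 0) = _
  rw [add_comm (po X Y.rev k σ bs fl j δ' w (Y.sy v w))]

/-- the receiving part -/
theorem rc_eq (X : Dat W B) (Y : Arcs W) (k : ℕ) (σ : Fin 6 → ℝ) (bs fl : Fin 6 → Finset ℕ)
    (j : Fin 6) (δ' : W → ℝ) (v : W) (s : Bool) :
    ∑ w with Y.ar v w ∧ Y.sy v w = s ∧ Y.ce v w ∈ fl j, po X Y.rev k σ bs fl j δ' w s =
      (2 ^ k / 3) * Y.rev.rc X k fl j s v
        (fun w => δ' w / 2 - Y.rev.nz k σ bs fl j (!s) w) := by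
  unfold Arcs.rc po
  rw [mul_sum]
  have h1 : (univ.filter fun y => Y.rev.ar y v ∧ Y.rev.sy y v = s ∧ Y.rev.ce y v ∈ fl j ∧ X.h1 y) =
      (univ.filter fun w => Y.ar v w ∧ Y.sy v w = s ∧ Y.ce v w ∈ fl j).filter
        (fun w => X.h1 w) := by
    ext w
    simp only [mem_filter, mem_univ, true_and]
    show (Y.ar v w ∧ Y.sy v w = s ∧ Y.ce v w ∈ fl j ∧ X.h1 w) ↔ _
    tauto
  rw [h1, sum_filter (fun w => X.h1 w)]
  refine sum_congr rfl fun w _ => ?_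
  by_cases hw : X.h1 w
  · rw [if_pos hw, if_pos hw]
    ring
  · rw [if_neg hw, if_neg hw]

/-- out-degree in the weights -/
theorem sum_xw (X : Dat W B) (Y : Arcs W) (k : ℕ) (σ : Fin 6 → ℝ) (bs fl : Fin 6 → Finset ℕ)
    (j : Fin 6) (δ δ' : W → ℝ) (v : W) :
    ∑ w, xw X Y k σ bs fl j δ δ' v w = ∑ s : Bool, (Y.oc s (fl j) v *
      (wc k σ bs j + po X Y k σ bs fl j δ v s) + (2 ^ k / 3) * Y.rev.rc X k fl j s v
        (fun w => δ' w / 2 - Y.rev.nz k σ bs fl j (!s) w)) := by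
  have h1 : ∀ w, xw X Y k σ bs fl j δ δ' v w = ∑ s : Bool,
      if Y.ar v w ∧ Y.sy v w = s ∧ Y.ce v w ∈ fl j then
        (wc k σ bs j + po X Y k σ bs fl j δ v s) + po X Y.rev k σ bs fl j δ' w s else 0 := by
    intro w
    unfold xw
    rw [Fintype.sum_bool]
    rcases hs : Y.sy v w with _ | _ <;> by_cases h : Y.ar v w ∧ Y.ce v w ∈ fl j
    · rw [if_pos h, if_neg (by simp), if_pos ⟨h.1, rfl, h.2⟩]
      ring
    · rw [if_neg h, if_neg (by simp), if_neg (by tauto)]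
      ring
    · rw [if_pos h, if_pos ⟨h.1, rfl, h.2⟩, if_neg (by simp)]
      ring
    · rw [if_neg h, if_neg (by tauto), if_neg (by simp)]
      ring
  rw [sum_congr rfl fun w _ => h1 w, sum_comm]
  refine sum_congr rfl fun s _ => ?_
  rw [← sum_filter, sum_add_distrib, sum_const, rc_eq, nsmul_eq_mul]
  rfl

/-- linear part of `rc` -/
theorem rc_lin (X : Dat W B) (Y : Arcs W) (k : ℕ) (fl : Fin 6 → Finset ℕ) (j : Fin 6) (s : Bool)
    (x : W) (e f : W → ℝ) (a b : ℝ) :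
    Y.rc X k fl j s x (fun y => a * e y + b * f y) =
      a * Y.rc X k fl j s x e + b * Y.rc X k fl j s x f := by
  unfold Arcs.rc
  rw [mul_sum, mul_sum, ← sum_add_distrib]
  exact sum_congr rfl fun y _ => by ring

theorem rc_congr (X : Dat W B) (Y : Arcs W) (k : ℕ) (fl : Fin 6 → Finset ℕ) (j : Fin 6) (s : Bool)
    (x : W) (e f : W → ℝ) (h : ∀ y, X.h1 y → e y = f y) :
    Y.rc X k fl j s x e = Y.rc X k fl j s x f := by
  unfold Arcs.rc
  refine sum_congr rfl fun y hy => ?_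
  simp only [mem_filter, mem_univ, true_and] at hy
  rw [h y hy.2.2.2]

/-- `rc` of the function `δ / 2 - nz` -/
theorem rc_bound (X : Dat W B) (Y : Arcs W) (k : ℕ) (σ : Fin 6 → ℝ) (bs fl : Fin 6 → Finset ℕ)
    (ρ1 : ℝ) (MI : Finset W) (H : Ohf X k σ bs fl ρ1 Y MI) (j : Fin 6) (hj : j ≠ 5) (δ : W → ℝ)
    (τ : ℝ) (x : W) (s : Bool) (hδ : |Y.rc X k fl j s x δ| ≤ τ) :
    |Y.rc X k fl j s x (fun w => δ w / 2 - Y.nz k σ bs fl j (!s) w)| ≤
      τ / 2 + (X.d : ℝ) ^ (-(1 / 100) : ℝ) := by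
  have h1 : (fun w => δ w / 2 - Y.nz k σ bs fl j (!s) w) =
      fun w => (1 / 2) * δ w + (-1) * Y.nz k σ bs fl j (!s) w := by
    funext w
    ring
  rw [h1, rc_lin]
  have h2 := H.av x s j hj
  have h3 : Y.rc X k fl j s x (fun w => Y.nz k σ bs fl j (!s) w) =
      ∑ y with Y.ar y x ∧ Y.sy y x = s ∧ Y.ce y x ∈ fl j ∧ X.h1 y,
    Y.nz k σ bs fl j (!s) y / Y.oc s (range (2 ^ k)) y := rfl
  rw [← h3] at h2
  refine (abs_add_le _ _).trans ?_
  rw [abs_mul, abs_mul]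
  norm_num
  linarith

/-- the number of out-arcs in the cells `bs j`, plus the weights -/
theorem out_eq (X : Dat W B) (Y : Arcs W) (k : ℕ) (σ : Fin 6 → ℝ) (bs fl : Fin 6 → Finset ℕ)
    (j : Fin 6) (δ δ' : W → ℝ) (v : W) :
    ∑ s : Bool, Y.oc s (bs j) v + ∑ w, xw X Y k σ bs fl j δ δ' v w =
      ∑ s : Bool, (σ j * Y.oc s (range (2 ^ k)) v + Y.nz k σ bs fl j s v +
        Y.oc s (fl j) v * po X Y k σ bs fl j δ v s +
        (2 ^ k / 3) * Y.rev.rc X k fl j s v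
          (fun w => δ' w / 2 - Y.rev.nz k σ bs fl j (!s) w)) := by
  rw [sum_xw, ← sum_add_distrib]
  refine sum_congr rfl fun s _ => ?_
  unfold Arcs.nz
  ring

/-- the pushes are small -/
theorem po_bound (X : Dat W B) (Y : Arcs W) (k : ℕ) (σ : Fin 6 → ℝ) (bs fl : Fin 6 → Finset ℕ)
    (ρ1 : ℝ) (MI : Finset W) (H : Ohf X k σ bs fl ρ1 Y MI) (j : Fin 6) (hj : j ≠ 5) (δ : W → ℝ)
    (hd : 0 < X.d) (v : W) (s : Bool) (hδ : |δ v| ≤ 2 * (X.d : ℝ) ^ (49 / 100 : ℝ)) :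
    |po X Y k σ bs fl j δ v s| ≤ 7 * 2 ^ k * (X.d : ℝ) ^ (-(51 / 100) : ℝ) := by
  have hd' : (0 : ℝ) < X.d := by exact_mod_cast hd
  have hr : (X.d : ℝ) ^ (-(51 / 100) : ℝ) = (X.d : ℝ) ^ (49 / 100 : ℝ) / X.d := by
    rw [eq_div_iff hd'.ne']
    nth_rw 2 [← Real.rpow_one (X.d : ℝ)]
    rw [← Real.rpow_add hd']
    norm_num
  have h49 : (0 : ℝ) < (X.d : ℝ) ^ (49 / 100 : ℝ) := Real.rpow_pos_of_pos hd' _
  unfold po
  by_cases hv : X.h1 v
  · rw [if_pos hv]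
    have hb := H.big v hv s
    have hn := H.nz v (!s) j hj
    set a := Y.oc s (range (2 ^ k)) v with ha
    have ha0 : 0 < a := lt_of_lt_of_le (by positivity) hb
    rw [abs_div, abs_mul, abs_of_pos ha0, abs_of_pos (by positivity : (0 : ℝ) < 2 ^ k / 3), hr]
    have h1 : |δ v / 2 - Y.nz k σ bs fl j (!s) v| ≤ 2 * (X.d : ℝ) ^ (49 / 100 : ℝ) := by
      refine (abs_sub _ _).trans ?_
      rw [abs_div, abs_of_pos (by norm_num : (0 : ℝ) < 2)]
      linarith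
    rw [div_le_iff₀ ha0]
    calc |δ v / 2 - Y.nz k σ bs fl j (!s) v| * (2 ^ k / 3)
        ≤ 2 * (X.d : ℝ) ^ (49 / 100 : ℝ) * (2 ^ k / 3) := by
          exact mul_le_mul_of_nonneg_right h1 (by positivity)
      _ ≤ 7 * 2 ^ k * ((X.d : ℝ) ^ (49 / 100 : ℝ) / X.d) * (X.d / 10) := by
          have : 7 * 2 ^ k * ((X.d : ℝ) ^ (49 / 100 : ℝ) / X.d) * (X.d / 10) =
              (7 / 10) * (2 ^ k * (X.d : ℝ) ^ (49 / 100 : ℝ)) := by
            field_simp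
          rw [this]
          have h2 : 0 ≤ 2 ^ k * (X.d : ℝ) ^ (49 / 100 : ℝ) := by positivity
          linarith
      _ ≤ 7 * 2 ^ k * ((X.d : ℝ) ^ (49 / 100 : ℝ) / X.d) * a := by
          exact mul_le_mul_of_nonneg_left hb (by positivity)
  · rw [if_neg hv, abs_zero]
    positivity

/-- The out-copies of the vertices of type `h1` are almost exact. -/
theorem half_h1 (X : Dat W B) (Y : Arcs W) (k : ℕ) (σ : Fin 6 → ℝ) (bs fl : Fin 6 → Finset ℕ)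
    (ρ1 : ℝ) (MI MO : Finset W) (H : Ohf X k σ bs fl ρ1 Y MI) (H' : Ohf X k σ bs fl ρ1 Y.rev MO)
    (j : Fin 6) (hj : j ≠ 5) (δ δ' : W → ℝ) (τ : ℝ) (hd : 0 < X.d) (v : W) (hv : X.h1 v)
    (hδ : |δ v| ≤ 2 * (X.d : ℝ) ^ (49 / 100 : ℝ))
    (hτ : ∀ s, |Y.rev.rc X k fl j s v δ'| ≤ τ) :
    |∑ s : Bool, Y.oc s (bs j) v + ∑ w, xw X Y k σ bs fl j δ δ' v w -
      (σ j * ∑ s : Bool, Y.oc s (range (2 ^ k)) v + δ v)| ≤
      14 * 2 ^ k * (X.d : ℝ) ^ (-(2 / 100) : ℝ) +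
        2 ^ k * (τ / 2 + (X.d : ℝ) ^ (-(1 / 100) : ℝ)) := by
  have hd' : (0 : ℝ) < X.d := by exact_mod_cast hd
  have hP : ∀ s, |Y.oc s (fl j) v * po X Y k σ bs fl j δ v s -
      (δ v / 2 - Y.nz k σ bs fl j (!s) v)| ≤ 7 * 2 ^ k * (X.d : ℝ) ^ (-(2 / 100) : ℝ) := by
    intro s
    have h1 := po_bound X Y k σ bs fl ρ1 MI H j hj δ hd v s hδ
    have hb := H.big v hv s
    have ha0 : 0 < Y.oc s (range (2 ^ k)) v := lt_of_lt_of_le (by positivity) hb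
    have h2 : δ v / 2 - Y.nz k σ bs fl j (!s) v =
        po X Y k σ bs fl j δ v s * (3 / 2 ^ k * Y.oc s (range (2 ^ k)) v) := by
      unfold po
      rw [if_pos hv]
      field_simp
    have h3 : Y.oc s (fl j) v * po X Y k σ bs fl j δ v s -
        (δ v / 2 - Y.nz k σ bs fl j (!s) v) = po X Y k σ bs fl j δ v s *
        (Y.oc s (fl j) v - 3 / 2 ^ k * Y.oc s (range (2 ^ k)) v) := by
      rw [h2]
      ring
    rw [h3, abs_mul]
    have h4 : (X.d : ℝ) ^ (-(2 / 100) : ℝ) =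
        (X.d : ℝ) ^ (-(51 / 100) : ℝ) * (X.d : ℝ) ^ (49 / 100 : ℝ) := by
      rw [← Real.rpow_add hd']
      norm_num
    rw [h4, ← mul_assoc]
    exact mul_le_mul h1 (H.us v s j hj) (abs_nonneg _) (by positivity)
  have hR : ∀ s, |(2 ^ k / 3) * Y.rev.rc X k fl j s v
      (fun w => δ' w / 2 - Y.rev.nz k σ bs fl j (!s) w)| ≤
      (2 ^ k / 3) * (τ / 2 + (X.d : ℝ) ^ (-(1 / 100) : ℝ)) := by
    intro s
    rw [abs_mul, abs_of_pos (by positivity : (0 : ℝ) < 2 ^ k / 3)]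
    exact mul_le_mul_of_nonneg_left (rc_bound X Y.rev k σ bs fl ρ1 MO H' j hj δ' τ v s (hτ s))
      (by positivity)
  rw [out_eq]
  simp only [Fintype.sum_bool]
  have p1 := hP true
  have p2 := hP false
  have r1 := hR true
  have r2 := hR false
  simp only [Bool.not_true, Bool.not_false] at p1 p2 r1 r2 ⊢
  have hτ0 : 0 ≤ τ := (abs_nonneg _).trans (hτ true)
  have hnn : (0 : ℝ) ≤ 2 ^ k * (τ / 2 + (X.d : ℝ) ^ (-(1 / 100) : ℝ)) := by positivity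
  rw [abs_le] at p1 p2 r1 r2 ⊢
  constructor <;> linarith [p1.1, p1.2, p2.1, p2.2, r1.1, r1.2, r2.1, r2.2]

/-- The out-copies of the other vertices. -/
theorem half_fr (X : Dat W B) (Y : Arcs W) (k : ℕ) (σ : Fin 6 → ℝ) (bs fl : Fin 6 → Finset ℕ)
    (ρ1 : ℝ) (MO : Finset W) (H' : Ohf X k σ bs fl ρ1 Y.rev MO)
    (j : Fin 6) (hj : j ≠ 5) (δ δ' : W → ℝ) (τ : ℝ) (v : W) (hv : ¬ X.h1 v)
    (hτ : ∀ s, |Y.rev.rc X k fl j s v δ'| ≤ τ) :
    |∑ s : Bool, Y.oc s (bs j) v + ∑ w, xw X Y k σ bs fl j δ δ' v w -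
      ∑ s : Bool, (σ j * Y.oc s (range (2 ^ k)) v + Y.nz k σ bs fl j s v)| ≤
        2 ^ k * (τ / 2 + (X.d : ℝ) ^ (-(1 / 100) : ℝ)) := by
  have hR : ∀ s, |(2 ^ k / 3) * Y.rev.rc X k fl j s v
      (fun w => δ' w / 2 - Y.rev.nz k σ bs fl j (!s) w)| ≤
      (2 ^ k / 3) * (τ / 2 + (X.d : ℝ) ^ (-(1 / 100) : ℝ)) := by
    intro s
    rw [abs_mul, abs_of_pos (by positivity : (0 : ℝ) < 2 ^ k / 3)]
    exact mul_le_mul_of_nonneg_left (rc_bound X Y.rev k σ bs fl ρ1 MO H' j hj δ' τ v s (hτ s))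
      (by positivity)
  have h0 : ∀ s, po X Y k σ bs fl j δ v s = 0 := fun s => if_neg hv
  rw [out_eq]
  simp only [Fintype.sum_bool, h0]
  have r1 := hR true
  have r2 := hR false
  simp only [Bool.not_true, Bool.not_false] at r1 r2 ⊢
  have hτ0 : 0 ≤ τ := (abs_nonneg _).trans (hτ true)
  have hnn : (0 : ℝ) ≤ 2 ^ k * (τ / 2 + (X.d : ℝ) ^ (-(1 / 100) : ℝ)) := by positivity
  rw [abs_le] at r1 r2 ⊢
  constructor <;> linarith [r1.1, r1.2, r2.1, r2.2]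

end Pool.Agent.Work.MP_db9399_oof_helper31
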