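import Pool.Agent.Work.MP_db9399_oof_helper31.Targets
import Pool.Agent.Work.MP_db9399_oox_helper48.OOX

/-!
# MP_db9399, OOF, part 4 (helper31): one class
-/

set_option autoImplicit false
set_option linter.unusedSectionVars false

namespace Pool.Agent.Work.MP_db9399_oof_helper31

open Finset Classical
open Pool.Agent.Work.MP_db9399_ts
open Pool.Agent.Work.MP_db9399_all (nb)

universe u

variable {W B : Type u} [Fintype W] [Fintype B]

theorem card_S0 (Y : Arcs W) (T : Finset ℕ) (v : W) :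
    ((((univ.filter fun p : W × W => Y.ar p.1 p.2 ∧ Y.ce p.1 p.2 ∈ T).filter
      fun p => p.1 = v).card : ℕ) : ℝ) = ∑ s : Bool, Y.oc s T v := by
  rw [sum_oc]
  congr 1
  refine card_bij (fun p _ => p.2) (fun p hp => ?_) (fun p hp q hq h => ?_) fun w hw => ?_
  · simp only [mem_filter, mem_univ, true_and] at hp ⊢
    rw [← hp.2]
    exact hp.1
  · simp only [mem_filter, mem_univ, true_and] at hp hq
    exact Prod.ext (hp.2.trans hq.2.symm) h
  · simp only [mem_filter, mem_univ, true_and] at hw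
    exact ⟨(v, w), by simp only [mem_filter, mem_univ, true_and]; exact ⟨hw, trivial⟩, rfl⟩

theorem card_S0' (Y : Arcs W) (T : Finset ℕ) (v : W) :
    ((((univ.filter fun p : W × W => Y.ar p.1 p.2 ∧ Y.ce p.1 p.2 ∈ T).filter
      fun p => p.2 = v).card : ℕ) : ℝ) = ∑ s : Bool, Y.rev.oc s T v := by
  rw [← card_S0 Y.rev T v]
  congr 1
  refine card_bij (fun p _ => (p.2, p.1)) (fun p hp => ?_) (fun p hp q hq h => ?_) fun w hw => ?_
  · simp only [mem_filter, mem_univ, true_and] at hp ⊢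
    exact hp
  · have h1 := (Prod.ext_iff.1 h)
    exact Prod.ext h1.2 h1.1
  · simp only [mem_filter, mem_univ, true_and] at hw
    exact ⟨(w.2, w.1), by simp only [mem_filter, mem_univ, true_and]; exact hw, rfl⟩

/-- The conditions on `d`. -/
structure Big (d k : ℕ) (ρ1 γ : ℝ) : Prop where
  d40 : 40 ≤ d
  b1 : 4 + (d : ℝ) ^ (1 / 4 : ℝ) ≤ 2 / 2 ^ k * (d / 5)
  b2 : 14 * 2 ^ k * (d : ℝ) ^ (-(51 / 100) : ℝ) ≤ 1 / 12
  b3 : 8 * (14 * 2 ^ k * (d : ℝ) ^ (-(2 / 100) : ℝ) +
    2 ^ k * ((1 / 2 * (d : ℝ) ^ (-γ) + er d) / 2 + (d : ℝ) ^ (-(1 / 100) : ℝ))) ≤ ρ1 ^ 2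

/-- One class. -/
theorem one (OOX : Stmt_OOX.{u}) (k : ℕ) (ρ ρ1 ρ5 c2 K1 γ : ℝ) (h1 : 0 < ρ1) (h1' : ρ1 ≤ 1)
    (X : Dat W B) (σ : Fin 6 → ℝ)
    (bs fl : Fin 6 → Finset ℕ) (Y : Arcs W) (MO MI M5 : Finset W) (D : ℕ) (L : W → ℕ)
    (hB : Big X.d k ρ1 γ) (reg : ∀ v, (nb X.G v).card = X.d) (j : Fin 6) (hj : j ≠ 5)
    (hD : (D : ℝ) = σ j * X.d) (hc : Cells k σ bs fl) (hO : Oob X k σ bs fl ρ ρ1 ρ5 c2 K1 Y MO MI M5)
    (hL : ∀ x, X.h1 x → |(L x : ℝ) - σ j * X.lg x| ≤ (X.d : ℝ) ^ (1 / 4 : ℝ))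
    (hr : ∀ x s, |Y.rc X k fl j s x fun y => (L y : ℝ) - σ j * X.lg y| ≤ (X.d : ℝ) ^ (-γ))
    (hr' : ∀ x s, |Y.rev.rc X k fl j s x fun y => (L y : ℝ) - σ j * X.lg y| ≤ (X.d : ℝ) ^ (-γ)) :
    ∃ S : SimpleGraph W, S ≤ X.FO ∧ (∀ v w, Y.ar v w → Y.ce v w ∈ bs j → S.Adj v w) ∧
      (∀ v w, Y.ar v w → S.Adj v w → Y.ce v w ∈ bs j ∪ fl j) ∧
      (∀ v, X.h1 v → v ∉ MO → v ∉ MI → (nb S v).card + L v = D) ∧
      (∀ v, X.h1 v → (nb S v).card + L v = D ∨ (nb S v).card + L v + 1 = D) ∧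
      ∀ v, X.fr v → |((nb S v).card : ℝ) - (σ j * X.nO v + Y.nt k σ bs fl j v)| ≤ 5 := by
  have hd0n : 0 < X.d := by have := hB.d40; omega
  have hd0 : (0 : ℝ) < X.d := by exact_mod_cast hd0n
  have hwj := hc.w j hj
  have hbj : (1 : ℝ) ≤ ((bs j).card : ℝ) := by exact_mod_cast card_pos.2 (hc.ne j)
  have hwc : 1 / 3 ≤ wc k σ bs j ∧ wc k σ bs j ≤ 2 / 3 := by
    unfold wc
    constructor
    · rw [le_div_iff₀ (by norm_num)]
      linarith [hwj.1]
    · rw [div_le_iff₀ (by norm_num)]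
      linarith [hwj.2]
  obtain ⟨To, Ti, t1, t2, t3, t4, t5⟩ := targets k X Y σ bs fl ρ1 γ MI MO hO.out hO.inn hO.arF
    hO.ar2 hO.ce j D L hB.d40 hB.b1 reg hD (by linarith [hwj.1]) hL hr hr'
  set δ : W → ℝ := fun y => (To y : ℝ) - σ j * ot Y k y with hδ
  set δ' : W → ℝ := fun y => (Ti y : ℝ) - σ j * ot Y.rev k y with hδ'
  set τ : ℝ := 1 / 2 * (X.d : ℝ) ^ (-γ) + er X.d with hτ
  set η : ℝ := 14 * 2 ^ k * (X.d : ℝ) ^ (-(2 / 100) : ℝ) +
    2 ^ k * (τ / 2 + (X.d : ℝ) ^ (-(1 / 100) : ℝ)) with hη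
  have hτ0 : 0 ≤ τ := by
    have := er_nonneg X.d
    positivity
  have hη0 : 0 ≤ η := by positivity
  set x0 : W → W → ℝ := xw X Y k σ bs fl j δ δ' with hx0
  have hrev : ∀ v w, x0 w v = xw X Y.rev k σ bs fl j δ' δ v w := by
    intro v w
    rw [hx0]
    exact (xw_rev X Y k σ bs fl j δ δ' w v).symm
  have hpob : ∀ v s, |po X Y k σ bs fl j δ v s| ≤ 1 / 24 := by
    intro v s
    by_cases hv : X.h1 v
    · refine (po_bound X Y k σ bs fl ρ1 MI hO.out j hj δ hd0n v s (t2 v hv)).trans ?_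
      linarith [hB.b2]
    · unfold po
      rw [if_neg hv, abs_zero]
      norm_num
  have hpob' : ∀ v s, |po X Y.rev k σ bs fl j δ' v s| ≤ 1 / 24 := by
    intro v s
    by_cases hv : X.h1 v
    · refine (po_bound X Y.rev k σ bs fl ρ1 MO hO.inn j hj δ' hd0n v s (t3 v hv)).trans ?_
      linarith [hB.b2]
    · unfold po
      rw [if_neg hv, abs_zero]
      norm_num
  obtain ⟨S, s1, s2, s3, s4, s5, s6⟩ := OOX X.FO Y.ar
    (univ.filter fun p : W × W => Y.ar p.1 p.2 ∧ Y.ce p.1 p.2 ∈ bs j)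
    (univ.filter fun p : W × W => Y.ar p.1 p.2 ∧ Y.ce p.1 p.2 ∈ fl j)
    x0 To Ti (univ.filter fun v => X.h1 v) MO MI X.d ρ1 η (by have := hB.d40; omega) h1 h1' hη0
    hB.b3 (fun v w h => ⟨(hO.arF v w).2 (Or.inl h), hO.ar2 v w h⟩)
    (fun v => by
      rw [← reg v]
      refine card_le_card fun w hw => ?_
      unfold nb at hw ⊢
      simp only [mem_filter, mem_univ, true_and] at hw ⊢
      exact hw.1)
    (fun p hp => by
      simp only [mem_filter, mem_univ, true_and] at hp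
      exact hp.1)
    (fun p hp => by
      simp only [mem_filter, mem_univ, true_and] at hp
      exact hp.1)
    (by
      rw [disjoint_left]
      intro p hp hq
      simp only [mem_filter, mem_univ, true_and] at hp hq
      exact disjoint_left.1 (hc.bf j j) hp.2 hq.2)
    hO.Moi
    (fun v w h => by
      simp only [mem_filter, mem_univ, true_and] at h
      have e1 : x0 v w = wc k σ bs j + (po X Y k σ bs fl j δ v (Y.sy v w) +
          po X Y.rev k σ bs fl j δ' w (Y.sy v w)) := by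
        rw [hx0]
        exact if_pos h
      have e2 := abs_le.1 (hpob v (Y.sy v w))
      have e3 := abs_le.1 (hpob' w (Y.sy v w))
      rw [e1]
      constructor
      · linarith [hwc.1, e2.1, e3.1]
      · linarith [hwc.2, e2.2, e3.2])
    (fun v w h => by
      simp only [mem_filter, mem_univ, true_and] at h
      rw [hx0]
      exact if_neg h)
    (fun v hv => by
      simp only [mem_filter, mem_univ, true_and] at hv
      have e1 := half_h1 X Y k σ bs fl ρ1 MI MO hO.out hO.inn j hj δ δ' τ hd0n v hv (t2 v hv)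
        (fun s => t5 v s)
      have e2 : σ j * ∑ s : Bool, Y.oc s (range (2 ^ k)) v + δ v = To v := by
        rw [hδ]
        show σ j * ot Y k v + ((To v : ℝ) - σ j * ot Y k v) = To v
        ring
      rw [e2, ← card_S0] at e1
      exact e1)
    (fun v hv => by
      simp only [mem_filter, mem_univ, true_and] at hv
      have e1 := half_h1 X Y.rev k σ bs fl ρ1 MO MI hO.inn hO.out j hj δ' δ τ hd0n v hv (t3 v hv)
        (fun s => t4 v s)
      have e2 : σ j * ∑ s : Bool, Y.rev.oc s (range (2 ^ k)) v + δ' v = Ti v := by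
        rw [hδ']
        show σ j * ot Y.rev k v + ((Ti v : ℝ) - σ j * ot Y.rev k v) = Ti v
        ring
      rw [e2, ← card_S0'] at e1
      rw [sum_congr rfl fun w _ => hrev v w]
      exact e1)
    (fun v hv => by
      simp only [mem_filter, mem_univ, true_and] at hv
      exact (t1 v hv).2)
    (fun v hv => by
      simp only [mem_filter, mem_univ, true_and] at hv
      have e1 := hO.out.mi v hv j hj
      simp only [mem_filter, mem_univ, true_and]
      exact e1)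
    (fun v hv => by
      simp only [mem_filter, mem_univ, true_and] at hv
      have e1 := hO.inn.mi v hv j hj
      simp only [mem_filter, mem_univ, true_and]
      exact e1)
  refine ⟨S, s1, fun v w ha hb => s2 (v, w) (by
      simp only [mem_filter, mem_univ, true_and]
      exact ⟨ha, hb⟩), fun v w ha hS => ?_, fun v hv hO' hI => ?_, fun v hv => ?_,
      fun v hv => ?_⟩
  · rcases s3 v w hS with h | h
    · simp only [mem_union, mem_filter, mem_univ, true_and] at h ⊢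
      tauto
    · exfalso
      simp only [mem_union, mem_filter, mem_univ, true_and] at h
      exact hO.ar2 v w ha (by tauto)
  · have e1 := s4 v (by simp only [mem_filter, mem_univ, true_and]; exact hv) hO' hI
    have e2 := (t1 v hv).1
    omega
  · have e1 := s5 v (by simp only [mem_filter, mem_univ, true_and]; exact hv)
    have e2 := (t1 v hv).1
    omega
  · have e1 := s6 v
    have hv' : ¬ X.h1 v := fun h => absurd h.2 (not_le.2 hv.2)
    have e2 := half_fr X Y k σ bs fl ρ1 MO hO.inn j hj δ δ' τ v hv' (fun s => t5 v s)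
    have e3 := half_fr X Y.rev k σ bs fl ρ1 MI hO.out j hj δ' δ τ v hv' (fun s => t4 v s)
    rw [← card_S0] at e2
    rw [← card_S0', ← sum_congr rfl fun w _ => hrev v w] at e3
    have e4 : ∑ s : Bool, (σ j * Y.oc s (range (2 ^ k)) v + Y.nz k σ bs fl j s v) +
        ∑ s : Bool, (σ j * Y.rev.oc s (range (2 ^ k)) v + Y.rev.nz k σ bs fl j s v) =
        σ j * X.nO v + Y.nt k σ bs fl j v := by
      rw [nO_eq X Y k hO.arF hO.ar2 hO.ce v]
      unfold ot Arcs.nt
      rw [sum_add_distrib, sum_add_distrib, sum_add_distrib, mul_add, mul_sum, mul_sum]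
      ring
    have e5 : 2 ^ k * (τ / 2 + (X.d : ℝ) ^ (-(1 / 100) : ℝ)) ≤ 1 / 8 := by
      have g1 := hB.b3
      rw [← hτ] at g1
      have g2 : (0 : ℝ) ≤ 14 * 2 ^ k * (X.d : ℝ) ^ (-(2 / 100) : ℝ) := by positivity
      have g3 : ρ1 ^ 2 ≤ 1 := by nlinarith
      linarith
    rw [← e4]
    rw [abs_le] at e1 e2 e3 ⊢
    constructor <;> linarith [e1.1, e1.2, e2.1, e2.2, e3.1, e3.2]

end Pool.Agent.Work.MP_db9399_oof_helper31
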