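import Pool.Agent.Work.MP_db9399_oof_helper31.Frac
import Pool.Agent.Work.MP_db9399_lab_helper61.Lab

/-!
# MP_db9399, OOF, part 2 (helper31): rounding of the targets by `lab`
-/

set_option autoImplicit false
set_option linter.unusedSectionVars false

namespace Pool.Agent.Work.MP_db9399_oof_helper31

open Finset Classical
open Pool.Agent.Work.MP_db9399_ts
open Pool.Agent.Work.MP_db9399_all (nb)

universe u

/-- the error of the rounding -/
noncomputable def er (d : ℕ) : ℝ := (Real.sqrt (128 * Real.log d) + 1) * (10 / Real.sqrt d)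

theorem er_nonneg (d : ℕ) : 0 ≤ er d := by
  unfold er
  positivity

/-- random rounding, tests with values `≤ 10 / d` -/
theorem lab_round {V κ : Type u} [Fintype V] [Fintype κ] (d : ℕ) (hd : 40 ≤ d) (t : V → ℝ)
    (a : κ → V → ℝ) (hSp : ∀ q, ((univ.filter fun v => a q v ≠ 0).card : ℝ) ≤ d)
    (hMu : ∀ v, ((univ.filter fun q => a q v ≠ 0).card : ℝ) ≤ 4 * d)
    (ha : ∀ q v, |a q v| ≤ 10 / d) :
    ∃ z : V → ℤ, (∀ v, |(z v : ℝ) - t v| ≤ 1) ∧ ∀ q, |∑ v, a q v * ((z v : ℝ) - t v)| ≤ er d := by
  have hd' : (40 : ℝ) ≤ d := by exact_mod_cast hd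
  have hd0 : (0 : ℝ) < d := by linarith
  have hlog : 0 ≤ Real.log d := Real.log_nonneg (by linarith)
  have hexp : Real.exp (-(4 * Real.log d)) = 1 / (d : ℝ) ^ 4 := by
    rw [Real.exp_neg, mul_comm, Real.exp_mul, Real.exp_log hd0, one_div]
    norm_num
  obtain ⟨ζ, h1, -, -, h2⟩ := Pool.Agent.Work.MP_db9399_lab.helper61.lab (m := 1) one_pos
    (fun v : V => v) (fun _ _ => (0 : ℝ)) (fun _ _ => 0) (fun _ _ => le_rfl)
    (fun _ _ => by simp) (fun v => 2 * Int.fract (t v) - 1)
    (fun v => by
      rw [abs_le]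
      constructor <;> linarith [Int.fract_nonneg (t v), Int.fract_lt_one (t v)])
    a d (4 * d) (4 * Real.log d) hd0.le (by positivity) hSp hMu (by positivity)
    (by
      rw [hexp]
      push_cast
      have h3 : 32 * (1 / (d : ℝ) ^ 4) * (d + 1) * (4 * 1 * (4 * d) + 1) =
          32 * (d + 1) * (16 * d + 1) / (d : ℝ) ^ 4 := by
        ring
      rw [h3, div_le_one (by positivity)]
      nlinarith [mul_self_nonneg ((d : ℝ) ^ 2 - 1600), pow_pos hd0 2, pow_pos hd0 3,
        mul_le_mul hd' hd' (by norm_num) hd0.le])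
    1
    (fun i => by
      have : (univ.filter fun v => v = i) = {i} := by
        ext v
        simp
      rw [this]
      simp)
  refine ⟨fun v => ⌊t v⌋ + if ζ v = 1 then 1 else 0, fun v => ?_, fun q => ?_⟩
  · push_cast
    have h4 := Int.floor_add_fract (t v)
    have h5 := Int.fract_nonneg (t v)
    have h6 := Int.fract_lt_one (t v)
    rw [abs_le]
    split_ifs <;> constructor <;> linarith
  · have h3 : ∀ v, (((⌊t v⌋ + if ζ v = 1 then 1 else 0 : ℤ) : ℝ) - t v) =
        (1 / 2) * (ζ v - (2 * Int.fract (t v) - 1)) := by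
      intro v
      have h4 := Int.floor_add_fract (t v)
      push_cast
      rcases h1 v with h | h
      · rw [h, if_pos rfl]
        linarith
      · rw [h, if_neg (by norm_num)]
        linarith
    have h4 : ∑ v, a q v * (((⌊t v⌋ + if ζ v = 1 then 1 else 0 : ℤ) : ℝ) - t v) =
        (1 / 2) * ∑ v, a q v * (ζ v - (2 * Int.fract (t v) - 1)) := by
      rw [mul_sum]
      refine sum_congr rfl fun v _ => ?_
      rw [h3 v]
      ring
    show |∑ v, a q v * (((⌊t v⌋ + if ζ v = 1 then 1 else 0 : ℤ) : ℝ) - t v)| ≤ er d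
    rw [h4, abs_mul]
    have h5 : ∑ v, a q v ^ 2 ≤ 100 / d := by
      have h6 : ∑ v, a q v ^ 2 = ∑ v with a q v ≠ 0, a q v ^ 2 := by
        rw [sum_filter]
        refine sum_congr rfl fun v _ => ?_
        split_ifs with h
        · rfl
        · push Not at h
          rw [h]
          ring
      rw [h6]
      calc ∑ v with a q v ≠ 0, a q v ^ 2 ≤ ∑ v with a q v ≠ 0, (10 / (d : ℝ)) ^ 2 := by
            refine sum_le_sum fun v _ => ?_
            rw [← sq_abs]
            exact pow_le_pow_left₀ (abs_nonneg _) (ha q v) 2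
        _ = ((univ.filter fun v => a q v ≠ 0).card : ℝ) * (10 / (d : ℝ)) ^ 2 := by
            rw [sum_const, nsmul_eq_mul]
        _ ≤ d * (10 / (d : ℝ)) ^ 2 := mul_le_mul_of_nonneg_right (hSp q) (by positivity)
        _ = 100 / d := by
            field_simp
            norm_num
    have h7 : Real.sqrt (∑ v, a q v ^ 2) ≤ 10 / Real.sqrt d := by
      refine (Real.sqrt_le_sqrt h5).trans ?_
      rw [Real.sqrt_div (by norm_num)]
      have : Real.sqrt 100 = 10 := by
        rw [show (100 : ℝ) = 10 ^ 2 by norm_num]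
        exact Real.sqrt_sq (by norm_num)
      rw [this]
    have h8 := h2 q
    have h9 : (32 * ((1 : ℕ) : ℝ) * (4 * Real.log d)) = 128 * Real.log d := by
      push_cast
      ring
    rw [h9] at h8
    push_cast at h8
    unfold er
    have h10 : (1 + 1) * (Real.sqrt (128 * Real.log d) + 1) * Real.sqrt (∑ v, a q v ^ 2) ≤
        2 * ((Real.sqrt (128 * Real.log d) + 1) * (10 / Real.sqrt d)) := by
      have := mul_le_mul_of_nonneg_left h7
        (by positivity : (0 : ℝ) ≤ Real.sqrt (128 * Real.log d) + 1)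
      linarith
    rw [abs_of_pos (by norm_num : (0 : ℝ) < 1 / 2)]
    linarith [h8.trans h10]

end Pool.Agent.Work.MP_db9399_oof_helper31
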