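import Pool.Agent.Work.MP_db9399_oof_helper31.Round

/-!
# MP_db9399, OOF, part 3 (helper31): the targets of the out- and in-copies
-/

set_option autoImplicit false
set_option linter.unusedSectionVars false

namespace Pool.Agent.Work.MP_db9399_oof_helper31

open Finset Classical
open Pool.Agent.Work.MP_db9399_ts
open Pool.Agent.Work.MP_db9399_all (nb)

universe u

variable {W B : Type u} [Fintype W] [Fintype B]

/-- number of the arcs out of `v` -/
noncomputable def ot (Y : Arcs W) (k : ℕ) (v : W) : ℝ := ∑ s : Bool, Y.oc s (range (2 ^ k)) v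

/-- sum over the two systems -/
theorem sum_oc (Y : Arcs W) (T : Finset ℕ) (v : W) :
    ∑ s : Bool, Y.oc s T v = ((univ.filter fun w => Y.ar v w ∧ Y.ce v w ∈ T).card : ℝ) := by
  rw [Fintype.sum_bool]
  unfold Arcs.oc
  rw [← Nat.cast_add, ← card_union_of_disjoint]
  · congr 2
    ext w
    simp only [mem_union, mem_filter, mem_univ, true_and]
    rcases hs : Y.sy v w with _ | _ <;> simp
  · rw [disjoint_left]
    intro w h1 h2
    simp only [mem_filter, mem_univ, true_and] at h1 h2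
    rw [h1.2.1] at h2
    simp at h2

theorem ot_eq (Y : Arcs W) (k : ℕ) (hce : ∀ v w, Y.ar v w → Y.ce v w < 2 ^ k) (v : W) :
    ot Y k v = ((univ.filter fun w => Y.ar v w).card : ℝ) := by
  unfold ot
  rw [sum_oc]
  congr 2
  ext w
  simp only [mem_filter, mem_univ, true_and, mem_range]
  exact ⟨fun h => h.1, fun h => ⟨h, hce v w h⟩⟩

theorem nO_eq (X : Dat W B) (Y : Arcs W) (k : ℕ) (arF : ∀ v w, X.FO.Adj v w ↔ Y.ar v w ∨ Y.ar w v)
    (ar2 : ∀ v w, Y.ar v w → ¬ Y.ar w v) (hce : ∀ v w, Y.ar v w → Y.ce v w < 2 ^ k) (v : W) :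
    X.nO v = ot Y k v + ot Y.rev k v := by
  rw [ot_eq Y k hce, ot_eq Y.rev k fun v w h => hce w v h]
  unfold Dat.nO
  rw [← Nat.cast_add, ← card_union_of_disjoint]
  · congr 2
    ext w
    unfold nb
    simp only [mem_union, mem_filter, mem_univ, true_and]
    exact arF v w
  · rw [disjoint_left]
    intro w h1 h2
    simp only [mem_filter, mem_univ, true_and] at h1 h2
    exact ar2 v w h1 h2

theorem nO_lg (X : Dat W B) (v : W) (hv : X.bl v = none) :
    X.nO v + X.lg v = ((nb X.G v).card : ℝ) := by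
  unfold Dat.nO Dat.lg
  rw [← Nat.cast_add, ← card_union_of_disjoint]
  · congr 2
    ext w
    unfold nb
    simp only [mem_union, mem_filter, mem_univ, true_and]
    show (X.G.Adj v w ∧ X.bl v = none ∧ X.bl w = none) ∨ (X.G.Adj v w ∧ X.bl w ≠ none) ↔ _
    tauto
  · rw [disjoint_left]
    intro w h1 h2
    unfold nb at h1 h2
    simp only [mem_filter, mem_univ, true_and] at h1 h2
    exact h2.2 h1.2.2

/-- the tests -/
noncomputable def tst (X : Dat W B) (Y : Arcs W) (k : ℕ) (fl : Fin 6 → Finset ℕ) (j : Fin 6)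
    (x : W) (s : Bool) (y : W) : ℝ :=
  if Y.ar y x ∧ Y.sy y x = s ∧ Y.ce y x ∈ fl j ∧ X.h1 y then 1 / Y.oc s (range (2 ^ k)) y else 0

theorem rc_tst (X : Dat W B) (Y : Arcs W) (k : ℕ) (fl : Fin 6 → Finset ℕ) (j : Fin 6)
    (x : W) (s : Bool) (e : W → ℝ) :
    Y.rc X k fl j s x e = ∑ y, tst X Y k fl j x s y * e y := by
  unfold Arcs.rc tst
  rw [sum_filter]
  refine sum_congr rfl fun y _ => ?_
  split_ifs <;> ring

/-- The targets. -/
theorem targets (k : ℕ) (X : Dat W B) (Y : Arcs W) (σ : Fin 6 → ℝ) (bs fl : Fin 6 → Finset ℕ)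
    (ρ1 γ : ℝ) (MI MO : Finset W) (H : Ohf X k σ bs fl ρ1 Y MI) (H' : Ohf X k σ bs fl ρ1 Y.rev MO)
    (arF : ∀ v w, X.FO.Adj v w ↔ Y.ar v w ∨ Y.ar w v)
    (ar2 : ∀ v w, Y.ar v w → ¬ Y.ar w v) (hce : ∀ v w, Y.ar v w → Y.ce v w < 2 ^ k)
    (j : Fin 6) (D : ℕ) (L : W → ℕ) (hd : 40 ≤ X.d)
    (hbig : 4 + (X.d : ℝ) ^ (1 / 4 : ℝ) ≤ 2 / 2 ^ k * (X.d / 5))
    (reg : ∀ v, (nb X.G v).card = X.d) (hD : (D : ℝ) = σ j * X.d) (hσ : 2 ≤ σ j * 2 ^ k)
    (hL : ∀ x, X.h1 x → |(L x : ℝ) - σ j * X.lg x| ≤ (X.d : ℝ) ^ (1 / 4 : ℝ))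
    (hr : ∀ x s, |Y.rc X k fl j s x fun y => (L y : ℝ) - σ j * X.lg y| ≤ (X.d : ℝ) ^ (-γ))
    (hr' : ∀ x s, |Y.rev.rc X k fl j s x fun y => (L y : ℝ) - σ j * X.lg y| ≤ (X.d : ℝ) ^ (-γ)) :
    ∃ To Ti : W → ℕ, (∀ v, X.h1 v → To v + Ti v + L v = D ∧ 1 ≤ To v ∧ 1 ≤ Ti v) ∧
      (∀ v, X.h1 v → |(To v : ℝ) - σ j * ot Y k v| ≤ 2 * (X.d : ℝ) ^ (49 / 100 : ℝ)) ∧
      (∀ v, X.h1 v → |(Ti v : ℝ) - σ j * ot Y.rev k v| ≤ 2 * (X.d : ℝ) ^ (49 / 100 : ℝ)) ∧
      (∀ x s, |Y.rc X k fl j s x fun y => (To y : ℝ) - σ j * ot Y k y| ≤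
        1 / 2 * (X.d : ℝ) ^ (-γ) + er X.d) ∧
      ∀ x s, |Y.rev.rc X k fl j s x fun y => (Ti y : ℝ) - σ j * ot Y.rev k y| ≤
        1 / 2 * (X.d : ℝ) ^ (-γ) + er X.d := by
  have hd' : (40 : ℝ) ≤ X.d := by exact_mod_cast hd
  have hd0 : (0 : ℝ) < X.d := by linarith
  -- the tests
  set a : W × Bool × Bool → W → ℝ := fun q y =>
    if q.2.2 = true then tst X Y k fl j q.1 q.2.1 y else tst X Y.rev k fl j q.1 q.2.1 y with ha
  have hadj : ∀ q y, a q y ≠ 0 → X.G.Adj q.1 y ∧ X.h1 y := by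
    intro q y hq
    simp only [ha] at hq
    unfold tst at hq
    split_ifs at hq with h1 h2 h2
    · exact ⟨(((arF y q.1).2 (Or.inl h2.1)).1).symm, h2.2.2.2⟩
    · exact absurd rfl hq
    · exact ⟨((arF q.1 y).2 (Or.inl h2.1)).1, h2.2.2.2⟩
    · exact absurd rfl hq
  have hSp : ∀ q, ((univ.filter fun v => a q v ≠ 0).card : ℝ) ≤ X.d := by
    intro q
    rw [← reg q.1]
    exact_mod_cast card_le_card fun y hy => by
      simp only [mem_filter, mem_univ, true_and] at hy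
      unfold nb
      simp only [mem_filter, mem_univ, true_and]
      exact (hadj q y hy).1
  have hMu : ∀ v, ((univ.filter fun q => a q v ≠ 0).card : ℝ) ≤ 4 * X.d := by
    intro v
    have h1 : (univ.filter fun q => a q v ≠ 0) ⊆ (nb X.G v) ×ˢ (univ : Finset (Bool × Bool)) := by
      intro q hq
      simp only [mem_filter, mem_univ, true_and] at hq
      rw [mem_product]
      refine ⟨?_, mem_univ _⟩
      unfold nb
      simp only [mem_filter, mem_univ, true_and]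
      exact (hadj q v hq).1.symm
    have h2 := card_le_card h1
    rw [card_product, reg v] at h2
    have h3 : (univ : Finset (Bool × Bool)).card = 4 := by rfl
    rw [h3] at h2
    calc ((univ.filter fun q => a q v ≠ 0).card : ℝ) ≤ ((X.d * 4 : ℕ) : ℝ) := by exact_mod_cast h2
      _ = 4 * X.d := by
        push_cast
        ring
  have hsup : ∀ q v, |a q v| ≤ 10 / X.d := by
    intro q v
    simp only [ha]
    unfold tst
    have h0 : (0 : ℝ) ≤ 10 / X.d := by positivity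
    have hinv : ∀ z : ℝ, (X.d : ℝ) / 10 ≤ z → |1 / z| ≤ 10 / X.d := by
      intro z hz
      have hz0 : 0 < z := lt_of_lt_of_le (by positivity) hz
      rw [abs_of_pos (by positivity), div_le_div_iff₀ hz0 hd0]
      linarith
    split_ifs with h1 h2 h2
    · exact hinv _ (H.big v h2.2.2.2 _)
    · rw [abs_zero]
      exact h0
    · exact hinv _ (H'.big v h2.2.2.2 _)
    · rw [abs_zero]
      exact h0
  set t : W → ℝ := fun v => σ j * ot Y k v + (σ j * X.lg v - L v) / 2 with ht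
  obtain ⟨z, hz1, hz2⟩ := lab_round X.d hd t a hSp hMu hsup
  -- sizes
  have hσ' : 2 / 2 ^ k ≤ σ j := by
    rw [div_le_iff₀ (by positivity)]
    exact hσ
  have hout : ∀ (Z : Arcs W) (M : Finset W), Ohf X k σ bs fl ρ1 Z M → ∀ v, X.h1 v →
      4 + (X.d : ℝ) ^ (1 / 4 : ℝ) ≤ σ j * ot Z k v := by
    intro Z M hZ v hv
    refine hbig.trans ?_
    have h1 := hZ.big v hv true
    have h2 := hZ.big v hv false
    have h3 : (X.d : ℝ) / 5 ≤ ot Z k v := by
      unfold ot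
      rw [Fintype.sum_bool]
      linarith
    exact mul_le_mul hσ' h3 (by positivity) (le_trans (by positivity) hσ')
  have hq0 : (0 : ℝ) ≤ (X.d : ℝ) ^ (1 / 4 : ℝ) := by positivity
  have hsplit : ∀ v, X.h1 v → (D : ℝ) - L v = t v + (σ j * ot Y.rev k v +
      (σ j * X.lg v - L v) / 2) := by
    intro v hv
    have h1 := nO_eq X Y k arF ar2 hce v
    have h2 := nO_lg X v hv.1
    rw [reg v] at h2
    simp only [ht]
    rw [hD, ← h2, h1]
    ring
  have hzpos : ∀ v, X.h1 v → (1 : ℤ) ≤ z v := by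
    intro v hv
    have h1 := hout Y MI H v hv
    have h2 := abs_le.1 (hL v hv)
    have h3 := abs_le.1 (hz1 v)
    have h4 : (1 : ℝ) ≤ z v := by
      simp only [ht] at h3
      linarith [h2.2, h3.1]
    exact_mod_cast h4
  have hzup : ∀ v, X.h1 v → z v + L v + 1 ≤ (D : ℤ) := by
    intro v hv
    have h1 := hout Y.rev MO H' v hv
    have h2 := abs_le.1 (hL v hv)
    have h3 := abs_le.1 (hz1 v)
    have h5 := hsplit v hv
    have h4 : (z v : ℝ) + L v + 1 ≤ D := by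
      linarith [h2.2, h3.2]
    exact_mod_cast h4
  have hTo : ∀ v, X.h1 v → (((z v).toNat : ℕ) : ℝ) = z v := by
    intro v hv
    have h1 : (((z v).toNat : ℕ) : ℤ) = z v := Int.toNat_of_nonneg (by linarith [hzpos v hv])
    exact_mod_cast h1
  have hsum : ∀ v, X.h1 v → (z v).toNat + (D - L v - (z v).toNat) + L v = D ∧
      1 ≤ (z v).toNat ∧ 1 ≤ D - L v - (z v).toNat := by
    intro v hv
    have h1 := hzpos v hv
    have h2 := hzup v hv
    omega
  have hTi : ∀ v, X.h1 v → ((D - L v - (z v).toNat : ℕ) : ℝ) = D - L v - z v := by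
    intro v hv
    have h1 := (hsum v hv).1
    have h2 : (((z v).toNat : ℕ) : ℝ) + ((D - L v - (z v).toNat : ℕ) : ℝ) + (L v : ℝ) = D := by
      exact_mod_cast h1
    rw [hTo v hv] at h2
    linarith
  have hd1 : (1 : ℝ) ≤ (X.d : ℝ) ^ (49 / 100 : ℝ) := Real.one_le_rpow (by linarith) (by norm_num)
  have hd2 : (X.d : ℝ) ^ (1 / 4 : ℝ) ≤ (X.d : ℝ) ^ (49 / 100 : ℝ) :=
    Real.rpow_le_rpow_of_exponent_le (by linarith) (by norm_num)
  have e1 : ∀ v, X.h1 v → ((((z v).toNat : ℕ) : ℝ) - σ j * ot Y k v) =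
      (-(1 / 2)) * ((L v : ℝ) - σ j * X.lg v) + 1 * ((z v : ℝ) - t v) := by
    intro v hv
    rw [hTo v hv]
    simp only [ht]
    ring
  have e2 : ∀ v, X.h1 v → (((D - L v - (z v).toNat : ℕ) : ℝ) - σ j * ot Y.rev k v) =
      (-(1 / 2)) * ((L v : ℝ) - σ j * X.lg v) + (-1) * ((z v : ℝ) - t v) := by
    intro v hv
    rw [hTi v hv]
    have h1 := hsplit v hv
    linarith
  refine ⟨fun v => (z v).toNat, fun v => D - L v - (z v).toNat, hsum, fun v hv => ?_,
    fun v hv => ?_, fun x s => ?_, fun x s => ?_⟩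
  · show |(((z v).toNat : ℕ) : ℝ) - σ j * ot Y k v| ≤ _
    rw [e1 v hv]
    have h2 := abs_le.1 (hL v hv)
    have h3 := abs_le.1 (hz1 v)
    rw [abs_le]
    constructor <;> linarith [h2.1, h2.2, h3.1, h3.2]
  · show |((D - L v - (z v).toNat : ℕ) : ℝ) - σ j * ot Y.rev k v| ≤ _
    rw [e2 v hv]
    have h2 := abs_le.1 (hL v hv)
    have h3 := abs_le.1 (hz1 v)
    rw [abs_le]
    constructor <;> linarith [h2.1, h2.2, h3.1, h3.2]
  · rw [rc_congr X Y k fl j s x _ _ e1, rc_lin]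
    have h1 := hr x s
    have h2 := hz2 (x, s, true)
    simp only [ha, if_true] at h2
    rw [← rc_tst] at h2
    rw [abs_le] at h1 h2 ⊢
    constructor <;> linarith [h1.1, h1.2, h2.1, h2.2]
  · rw [rc_congr X Y.rev k fl j s x _ _ e2, rc_lin]
    have h1 := hr' x s
    have h2 := hz2 (x, s, false)
    simp only [ha, Bool.false_eq_true, if_false] at h2
    rw [← rc_tst] at h2
    rw [abs_le] at h1 h2 ⊢
    constructor <;> linarith [h1.1, h1.2, h2.1, h2.2]

end Pool.Agent.Work.MP_db9399_oof_helper31
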